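import Pool.Agent.Helper144.L1.Count

/-!
The counting argument for a colouring of `ℤ^d`.
-/

set_option autoImplicit false

namespace Pool.Agent.Helper144.L1

open Finset

variable {d k : ℕ}

/-- Points at `ℓ_1`-distance `4` get different colours. -/
def Proper4 (f : (Fin d → ℤ) → Fin k) : Prop :=
  ∀ x y : Fin d → ℤ, ∑ i, |x i - y i| = 4 → f x ≠ f y

/-- The ordered pairs of signed coordinates with different coordinates. -/
def PP (d : ℕ) : Finset (P d × P d) := univ.filter (fun x => x.1.1 ≠ x.2.1)

theorem mem_PP {x : P d × P d} : x ∈ PP d ↔ x.1.1 ≠ x.2.1 := by simp [PP]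

theorem card_PP (d : ℕ) : 4 * d * d ≤ (PP d).card + 4 * d := by
  classical
  have h1 := Finset.card_filter_add_card_filter_not (s := (univ : Finset (P d × P d)))
    (fun x => x.1.1 ≠ x.2.1)
  have h2 : (univ.filter (fun x : P d × P d => ¬ x.1.1 ≠ x.2.1)).card ≤
      (univ : Finset (Fin d × Bool × Bool)).card := by
    refine Finset.card_le_card_of_injOn (fun x => (x.1.1, x.1.2, x.2.2)) (fun x _ => mem_univ _) ?_
    rintro ⟨⟨i, b⟩, ⟨j, c⟩⟩ hx ⟨⟨i', b'⟩, ⟨j', c'⟩⟩ hy h
    simp at hx hy h ⊢
    obtain ⟨h1, h2, h3⟩ := h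
    subst h1; subst h2; subst h3; subst hx; subst hy
    simp
  have h3 : (univ : Finset (Fin d × Bool × Bool)).card = 4 * d := by
    simp [Fintype.card_prod]; ring
  have h4 : (univ : Finset (P d × P d)).card = 4 * d * d := by
    simp [Fintype.card_prod]; ring
  change (univ.filter (fun x : P d × P d => x.1.1 ≠ x.2.1)).card + _ = _ at h1
  rw [PP]
  omega

theorem ne_neg_of {p q : P d} (h : p.1 ≠ q.1) : p ≠ neg q := fun e => h (by rw [e]; rfl)

section

variable {f : (Fin d → ℤ) → Fin k}

/-- A colour class meets the points `c + u p + u q` in an intersecting family. -/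
theorem class_bound (hd : 3 ≤ d) (hf : Proper4 f) (c : Fin d → ℤ) (m : Fin k) :
    ((PP d).filter (fun x => f (c + u x.1 + u x.2) = m)).card ≤ 4 * (d - 1) := by
  refine inter_bound hd _ (fun x hx => mem_PP.1 (mem_filter.1 hx).1) ?_
  intro x hx y hy
  obtain ⟨hx1, hx2⟩ := mem_filter.1 hx
  obtain ⟨hy1, hy2⟩ := mem_filter.1 hy
  rw [mem_PP] at hx1 hy1
  by_contra hcon
  push Not at hcon
  obtain ⟨n1, n2, n3, n4⟩ := hcon
  refine hf (c + u x.1 + u x.2) (c + u y.1 + u y.2) ?_ (hx2.trans hy2.symm)
  have h := four (p := x.1) (q := x.2) (r := neg y.1) (s := neg y.2)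
    (ne_neg_of hx1) (by rwa [neg_neg]) (by rwa [neg_neg])
    (by rwa [neg_neg]) (by rwa [neg_neg])
    (ne_neg_of (p := neg y.1) (q := neg y.2) hy1)
  rw [← h]
  refine Finset.sum_congr rfl fun i _ => ?_
  rw [u_neg, u_neg]
  simp only [Pi.add_apply, Pi.neg_apply]
  congr 1
  ring

/-- The cross around `c` has `2 d` different colours. -/
theorem cross_inj (hf : Proper4 f) (c : Fin d → ℤ) :
    Function.Injective (fun r : P d => f (c + u r + u r)) := by
  intro r s h
  by_contra hne
  refine hf (c + u r + u r) (c + u s + u s) ?_ h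
  have hr : ∀ p : P d, p ≠ neg p := by
    intro p hp
    have := congrArg Prod.snd hp
    simp [neg] at this
  have h := four (p := r) (q := r) (r := neg s) (s := neg s)
    (hr r) (by rwa [neg_neg]) (by rwa [neg_neg]) (by rwa [neg_neg]) (by rwa [neg_neg])
    (hr _)
  rw [← h]
  refine Finset.sum_congr rfl fun i _ => ?_
  rw [u_neg]
  simp only [Pi.add_apply, Pi.neg_apply]
  congr 1
  ring

/-- The colours that do not occur on the cross around `c`. -/
noncomputable def missing (f : (Fin d → ℤ) → Fin k) (c : Fin d → ℤ) : Finset (Fin k) := by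
  classical exact univ \ univ.image (fun r : P d => f (c + u r + u r))

theorem card_missing (hf : Proper4 f) (c : Fin d → ℤ) : (missing f c).card + 2 * d = k := by
  classical
  have h1 : (univ.image (fun r : P d => f (c + u r + u r))).card = 2 * d := by
    rw [card_image_of_injective _ (cross_inj hf c)]
    simp [Fintype.card_prod, mul_comm]
  have h2 : (missing f c).card + (univ.image (fun r : P d => f (c + u r + u r))).card =
      (univ : Finset (Fin k)).card := by
    have := Finset.card_sdiff_add_card_eq_card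
      (Finset.subset_univ (univ.image (fun r : P d => f (c + u r + u r))))
    rw [← this]
    unfold missing
    congr!
  rw [h1] at h2
  simpa using h2

theorem mem_missing {c : Fin d → ℤ} {m : Fin k} :
    m ∈ missing f c ↔ ∀ r : P d, f (c + u r + u r) ≠ m := by
  classical
  simp [missing]

/-- Upper bound at a centre. -/
theorem V_bound (hd : 3 ≤ d) (hf : Proper4 f) (c : Fin d → ℤ) :
    ((PP d).filter (fun x => f (c + u x.1 + u x.2) ∈ missing f c)).card ≤
      4 * (d - 1) * (k - 2 * d) := by
  classical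
  have h1 := card_missing hf c
  have h2 : (missing f c).card = k - 2 * d := by omega
  rw [← h2]
  refine Finset.card_le_mul_card_image_of_maps_to (f := fun x => f (c + u x.1 + u x.2)) ?_ _ ?_
  · intro x hx
    exact (mem_filter.1 hx).2
  · intro m _
    refine (Finset.card_le_card ?_).trans (class_bound hd hf c m)
    intro x hx
    obtain ⟨h3, h4⟩ := mem_filter.1 hx
    exact mem_filter.2 ⟨(mem_filter.1 h3).1, h4⟩

/-- Lower bound at a point. -/
theorem U_bound (hd : 3 ≤ d) (hf : Proper4 f) (s : Fin d → ℤ) :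
    4 * (d - 1) * (d - 2) ≤
      ((PP d).filter (fun x => f s ∈ missing f (s - u x.1 - u x.2))).card := by
  classical
  set A := (PP d).filter (fun x => f (s + u x.1 - u x.2) = f s) with hA
  set B := (PP d).filter (fun x => f (s - u x.1 + u x.2) = f s) with hB
  set U := (PP d).filter (fun x => f s ∈ missing f (s - u x.1 - u x.2)) with hU
  have hcov : PP d ⊆ A ∪ B ∪ U := by
    intro x hx
    by_contra hcon
    simp only [mem_union, not_or] at hcon
    obtain ⟨⟨h1, h2⟩, h3⟩ := hcon
    have h1' : f (s + u x.1 - u x.2) ≠ f s := fun h => h1 (mem_filter.2 ⟨hx, h⟩)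
    have h2' : f (s - u x.1 + u x.2) ≠ f s := fun h => h2 (mem_filter.2 ⟨hx, h⟩)
    refine h3 (mem_filter.2 ⟨hx, mem_missing.2 fun r hr => ?_⟩)
    rw [mem_PP] at hx
    by_cases e1 : r = x.1
    · apply h1'
      rw [← hr, e1]
      congr 1
      abel
    by_cases e2 : r = x.2
    · apply h2'
      rw [← hr, e2]
      congr 1
      abel
    refine hf _ _ ?_ hr
    have hrr : r ≠ neg r := by
      intro hp
      have := congrArg Prod.snd hp
      simp [neg] at this
    have h := four (p := r) (q := r) (r := neg x.1) (s := neg x.2) hrr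
      (by rwa [neg_neg]) (by rwa [neg_neg]) (by rwa [neg_neg]) (by rwa [neg_neg])
      (ne_neg_of (p := neg x.1) (q := neg x.2) hx)
    rw [← h]
    refine Finset.sum_congr rfl fun i _ => ?_
    rw [u_neg, u_neg]
    simp only [Pi.add_apply, Pi.neg_apply, Pi.sub_apply]
    congr 1
    ring
  have hAc : A.card ≤ 4 * (d - 1) := by
    refine le_trans ?_ (class_bound hd hf s (f s))
    refine Finset.card_le_card_of_injOn (fun x => (x.1, neg x.2)) ?_ ?_
    · intro x hx
      obtain ⟨h1, h2⟩ := mem_filter.1 (mem_coe.1 hx)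
      refine mem_coe.2 (mem_filter.2 ⟨mem_PP.2 (show x.1.1 ≠ x.2.1 from mem_PP.1 h1), ?_⟩)
      rw [← h2]
      simp only
      rw [u_neg]
      congr 1
    · rintro ⟨p, q⟩ _ ⟨p', q'⟩ _ h
      simp only [Prod.mk.injEq] at h ⊢
      refine ⟨h.1, ?_⟩
      rw [← neg_neg q, h.2, neg_neg]
  have hBc : B.card ≤ 4 * (d - 1) := by
    refine le_trans ?_ (class_bound hd hf s (f s))
    refine Finset.card_le_card_of_injOn (fun x => (neg x.1, x.2)) ?_ ?_
    · intro x hx
      obtain ⟨h1, h2⟩ := mem_filter.1 (mem_coe.1 hx)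
      refine mem_coe.2 (mem_filter.2 ⟨mem_PP.2 (show x.1.1 ≠ x.2.1 from mem_PP.1 h1), ?_⟩)
      rw [← h2]
      simp only
      rw [u_neg]
      congr 1
    · rintro ⟨p, q⟩ _ ⟨p', q'⟩ _ h
      simp only [Prod.mk.injEq] at h ⊢
      refine ⟨?_, h.2⟩
      rw [← neg_neg p, h.1, neg_neg]
  have h1 := Finset.card_le_card hcov
  have h2 := Finset.card_union_le (A ∪ B) U
  have h3 := Finset.card_union_le A B
  have h4 := card_PP d
  obtain ⟨e, rfl⟩ := Nat.exists_eq_add_of_le hd
  have h5 : 3 + e - 1 = e + 2 := by omega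
  have h6 : 3 + e - 2 = e + 1 := by omega
  rw [h5] at hAc hBc ⊢
  rw [h6]
  nlinarith

end

end Pool.Agent.Helper144.L1
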