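import Mathlib

/-!
A lower bound `3 d - 2` for the number of colours of a colouring of `ℤ^d` in which points at
`ℓ_1`-distance `4` get different colours.
-/

set_option autoImplicit false

namespace Pool.Agent.Helper144.L1

/-- Signed coordinates. -/
abbrev P (d : ℕ) := Fin d × Bool

/-- The opposite signed coordinate. -/
def neg {d : ℕ} (p : P d) : P d := (p.1, !p.2)

/-- The signed unit vector. -/
def u {d : ℕ} (p : P d) : Fin d → ℤ := fun i => if p.1 = i then (if p.2 then 1 else -1) else 0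

theorem neg_neg {d : ℕ} (p : P d) : neg (neg p) = p := by
  rcases p with ⟨i, b⟩
  simp [neg]

theorem u_neg {d : ℕ} (p : P d) : u (neg p) = - u p := by
  funext i
  rcases p with ⟨j, b⟩
  simp only [u, neg, Pi.neg_apply]
  by_cases h : j = i <;> cases b <;> simp [h]

theorem mul_nonneg_of {d : ℕ} {p q : P d} (h : p ≠ neg q) (i : Fin d) : 0 ≤ u p i * u q i := by
  rcases p with ⟨j, b⟩
  rcases q with ⟨l, c⟩
  simp only [u, neg] at *
  by_cases h1 : j = i
  · by_cases h2 : l = i
    · subst h1; subst h2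
      cases b <;> cases c <;> simp_all
    · simp [h2]
  · simp [h1]

theorem sum_abs_u {d : ℕ} (p : P d) : ∑ i, |u p i| = 1 := by
  have : ∀ i, |u p i| = if p.1 = i then 1 else 0 := by
    intro i
    simp only [u]
    split_ifs <;> simp
  simp [this]

theorem abs_add_of {a b : ℤ} (h : 0 ≤ a * b) : |a + b| = |a| + |b| := by
  rw [abs_add_eq_add_abs_iff]
  exact mul_nonneg_iff.1 h

/-- Four signed unit vectors, no two opposite. -/
theorem four {d : ℕ} {p q r s : P d} (h1 : p ≠ neg q) (h2 : p ≠ neg r) (h3 : p ≠ neg s)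
    (h4 : q ≠ neg r) (h5 : q ≠ neg s) (h6 : r ≠ neg s) :
    ∑ i, |u p i + u q i + u r i + u s i| = 4 := by
  have key : ∀ i, |u p i + u q i + u r i + u s i| = |u p i| + |u q i| + |u r i| + |u s i| := by
    intro i
    have e1 := mul_nonneg_of h1 i
    have e2 := mul_nonneg_of h2 i
    have e3 := mul_nonneg_of h3 i
    have e4 := mul_nonneg_of h4 i
    have e5 := mul_nonneg_of h5 i
    have e6 := mul_nonneg_of h6 i
    rw [abs_add_of (by rw [add_mul, add_mul]; positivity),
      abs_add_of (by rw [add_mul]; positivity), abs_add_of e1]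
  simp only [key, Finset.sum_add_distrib, sum_abs_u]
  norm_num

/-! ### Intersecting families of pairs -/

theorem card_ne {d : ℕ} (i : Fin d) :
    (Finset.univ.filter (fun q : P d => q.1 ≠ i)).card = 2 * (d - 1) := by
  have : (Finset.univ.filter (fun q : P d => q.1 ≠ i)) =
      (Finset.univ.erase i) ×ˢ (Finset.univ : Finset Bool) := by
    ext ⟨j, b⟩
    simp
  rw [this, Finset.card_product, Finset.card_erase_of_mem (Finset.mem_univ _)]
  simp [mul_comm]

theorem star_bound {d : ℕ} (R : Finset (P d × P d)) (hR : ∀ x ∈ R, x.1.1 ≠ x.2.1) (a : P d)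
    (h : ∀ x ∈ R, x.1 = a ∨ x.2 = a) : R.card ≤ 4 * (d - 1) := by
  classical
  have hsub : R ⊆ (Finset.univ.filter (fun q : P d => q.1 ≠ a.1)).image (fun q => (a, q)) ∪
      (Finset.univ.filter (fun q : P d => q.1 ≠ a.1)).image (fun q => (q, a)) := by
    rintro ⟨p, q⟩ hx
    have h1 := hR _ hx
    simp only [Finset.mem_union, Finset.mem_image, Finset.mem_filter, Finset.mem_univ, true_and]
    rcases h _ hx with h2 | h2
    · left
      simp only at h1 h2
      subst h2
      exact ⟨q, fun h => h1 h.symm, rfl⟩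
    · right
      simp only at h1 h2
      subst h2
      exact ⟨p, h1, rfl⟩
  have h1 := Finset.card_le_card hsub
  have h2 := Finset.card_union_le
    ((Finset.univ.filter (fun q : P d => q.1 ≠ a.1)).image (fun q => (a, q)))
    ((Finset.univ.filter (fun q : P d => q.1 ≠ a.1)).image (fun q => (q, a)))
  have h3 := Finset.card_image_le (s := Finset.univ.filter (fun q : P d => q.1 ≠ a.1))
    (f := fun q => (a, q))
  have h4 := Finset.card_image_le (s := Finset.univ.filter (fun q : P d => q.1 ≠ a.1))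
    (f := fun q => (q, a))
  rw [card_ne] at h3 h4
  omega

theorem inter_bound {d : ℕ} (hd : 3 ≤ d) (R : Finset (P d × P d))
    (hR : ∀ x ∈ R, x.1.1 ≠ x.2.1)
    (hI : ∀ x ∈ R, ∀ y ∈ R, x.1 = y.1 ∨ x.1 = y.2 ∨ x.2 = y.1 ∨ x.2 = y.2) :
    R.card ≤ 4 * (d - 1) := by
  classical
  rcases R.eq_empty_or_nonempty with rfl | ⟨⟨a, b⟩, hab⟩
  · simp
  by_cases h1 : ∀ x ∈ R, x.1 = a ∨ x.2 = a
  · exact star_bound R hR a h1
  by_cases h2 : ∀ x ∈ R, x.1 = b ∨ x.2 = b
  · exact star_bound R hR b h2
  push Not at h1 h2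
  obtain ⟨⟨x1, x2⟩, hx, hxa, hxa'⟩ := h1
  obtain ⟨⟨y1, y2⟩, hy, hyb, hyb'⟩ := h2
  simp only at hxa hxa' hyb hyb'
  have hne : ∀ x ∈ R, x.1 ≠ x.2 := fun x hx h => hR x hx (congrArg Prod.fst h)
  obtain ⟨c, hc⟩ : ∃ c, R ⊆ {(a, b), (b, a), (a, c), (c, a), (b, c), (c, b)} := by
    refine ⟨if x1 = b then x2 else x1, ?_⟩
    rintro ⟨z1, z2⟩ hz
    have e1 := hI _ hz _ hab
    have e2 := hI _ hz _ hx
    have e3 := hI _ hz _ hy
    have e4 := hI _ hx _ hy
    have e5 := hI _ hx _ hab
    have e6 := hI _ hy _ hab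
    have n1 := hne _ hz
    have n2 := hne _ hx
    have n3 := hne _ hy
    have n4 := hne _ hab
    simp only at e1 e2 e3 e4 e5 e6 n1 n2 n3 n4
    simp only [Finset.mem_insert, Finset.mem_singleton, Prod.mk.injEq]
    clear hI hR hne hz hx hy hab
    split_ifs with hb
    · grind
    · grind
  have h3 := Finset.card_le_card hc
  have h4 := Finset.card_le_six (a := (a, b)) (b := (b, a)) (c := (a, c)) (d := (c, a))
    (e := (b, c)) (f := (c, b))
  omega

end Pool.Agent.Helper144.L1
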