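import Pool.Agent.Helper144.L1.Signed

/-!
An explicit exponential lower bound from the bound for powers of two.
-/

set_option autoImplicit false

namespace Pool.Agent.Helper144.L1

open Nat

/-- Arithmetic and geometric mean for rising products. -/
theorem asc_le (n k : ℕ) :
    (2 : ℝ) ^ k * (((n + 1).ascFactorial k : ℕ) : ℝ) ≤ (2 * (n : ℝ) + k + 1) ^ k := by
  induction k with
  | zero => simp
  | succ k ih =>
    rw [Nat.ascFactorial_succ]
    push_cast
    have hM : (0 : ℝ) < 2 * (n : ℝ) + k + 1 := by positivity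
    have hb := one_add_mul_le_pow (a := 1 / (2 * (n : ℝ) + k + 1))
      (by have : (0 : ℝ) ≤ 1 / (2 * (n : ℝ) + k + 1) := by positivity
          linarith) k
    have h1 : (2 * (n : ℝ) + k + 1) ^ k * (2 * ((n : ℝ) + 1 + k)) ≤
        (2 * (n : ℝ) + (k + 1) + 1) ^ (k + 1) := by
      have e1 : (2 * (n : ℝ) + (k + 1) + 1) ^ (k + 1) =
          (2 * (n : ℝ) + k + 1) ^ k * ((1 + 1 / (2 * (n : ℝ) + k + 1)) ^ k *
            (2 * (n : ℝ) + (k + 1) + 1)) := by
        rw [← mul_assoc, ← mul_pow, pow_succ]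
        congr 2
        field_simp
        ring
      rw [e1]
      refine mul_le_mul_of_nonneg_left ?_ (by positivity)
      refine le_trans ?_ (mul_le_mul_of_nonneg_right hb (by positivity))
      have e2 : (1 + (k : ℝ) * (1 / (2 * (n : ℝ) + k + 1))) * (2 * (n : ℝ) + (k + 1) + 1) =
          2 * ((n : ℝ) + 1 + k) + k * (1 / (2 * (n : ℝ) + k + 1)) := by
        field_simp
        ring
      rw [e2]
      have : (0 : ℝ) ≤ k * (1 / (2 * (n : ℝ) + k + 1)) := by positivity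
      linarith
    calc (2 : ℝ) ^ (k + 1) * (((n : ℝ) + 1 + k) * (((n + 1).ascFactorial k : ℕ) : ℝ))
        = (2 ^ k * (((n + 1).ascFactorial k : ℕ) : ℝ)) * (2 * ((n : ℝ) + 1 + k)) := by ring
      _ ≤ (2 * (n : ℝ) + k + 1) ^ k * (2 * ((n : ℝ) + 1 + k)) :=
          mul_le_mul_of_nonneg_right ih (by positivity)
      _ ≤ _ := h1

/-- A lower bound for falling products. -/
theorem le_desc (d k : ℕ) (hk : k ≤ d) :
    ((d : ℝ) * (d - k + 1)) ^ k ≤ ((d.descFactorial k : ℕ) : ℝ) ^ 2 := by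
  induction k with
  | zero => simp
  | succ k ih =>
    have ih' := ih (by omega)
    rw [Nat.descFactorial_succ]
    have hM : (0 : ℝ) < (d : ℝ) - k := by
      have : ((k : ℕ) : ℝ) < d := by exact_mod_cast (show k < d by omega)
      linarith
    have hcast : ((d - k : ℕ) : ℝ) = (d : ℝ) - k := by rw [Nat.cast_sub (by omega)]
    push_cast
    rw [hcast]
    have hb := one_add_mul_le_pow (a := 1 / ((d : ℝ) - k))
      (by have : (0 : ℝ) ≤ 1 / ((d : ℝ) - k) := by positivity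
          linarith) k
    have hd0 : (0 : ℝ) ≤ d := by positivity
    have h1 : ((d : ℝ) * (d - (k + 1) + 1)) ^ (k + 1) ≤
        ((d : ℝ) * (d - k + 1)) ^ k * ((d : ℝ) - k) ^ 2 := by
      have e1 : ((d : ℝ) * (d - k + 1)) ^ k =
          ((d : ℝ) * (d - k)) ^ k * (1 + 1 / ((d : ℝ) - k)) ^ k := by
        rw [← mul_pow]
        congr 1
        field_simp
      have e2 : ((d : ℝ) * (d - (k + 1) + 1)) ^ (k + 1) =
          ((d : ℝ) * (d - k)) ^ k * ((d : ℝ) * (d - k)) := by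
        rw [pow_succ]
        congr 2 <;> ring
      rw [e1, e2, mul_assoc]
      refine mul_le_mul_of_nonneg_left ?_ (by positivity)
      refine le_trans ?_ (mul_le_mul_of_nonneg_right hb (by positivity))
      have e3 : (1 + (k : ℝ) * (1 / ((d : ℝ) - k))) * ((d : ℝ) - k) ^ 2 =
          (d : ℝ) * (d - k) := by
        field_simp
        ring
      rw [e3]
    calc ((d : ℝ) * (d - (k + 1) + 1)) ^ (k + 1) ≤
        ((d : ℝ) * (d - k + 1)) ^ k * ((d : ℝ) - k) ^ 2 := h1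
      _ ≤ ((d.descFactorial k : ℕ) : ℝ) ^ 2 * ((d : ℝ) - k) ^ 2 :=
          mul_le_mul_of_nonneg_right ih' (by positivity)
      _ = _ := by ring

/-- The bound for `q = r + 1` in a convenient form. -/
theorem conv {d n r : ℕ} (hr : 2 * r + 1 ≤ d)
    (h : 2 ^ (2 * r + 1) * d.choose (2 * r + 1) ≤ n * (2 * d).choose r) :
    ((4 / 3 : ℝ) * ((d : ℝ) - 2 * r)) ^ (r + 1) ≤ n * ((r : ℝ) + 1) ^ (r + 1) := by
  -- natural number part
  have h1 : 2 ^ (2 * r + 1) * d.descFactorial (2 * r + 1) ≤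
      n * ((r + 1).ascFactorial (r + 1) * (2 * d) ^ r) := by
    have e1 : (2 * r + 1)! = r ! * (r + 1).ascFactorial (r + 1) := by
      rw [Nat.factorial_mul_ascFactorial]
      congr 1
      ring
    have e2 : (2 * d).descFactorial r ≤ (2 * d) ^ r := Nat.descFactorial_le_pow _ _
    rw [Nat.descFactorial_eq_factorial_mul_choose] at e2 ⊢
    calc 2 ^ (2 * r + 1) * ((2 * r + 1)! * d.choose (2 * r + 1))
        = (2 * r + 1)! * (2 ^ (2 * r + 1) * d.choose (2 * r + 1)) := by ring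
      _ ≤ (2 * r + 1)! * (n * (2 * d).choose r) := Nat.mul_le_mul_left _ h
      _ = n * ((r + 1).ascFactorial (r + 1) * (r ! * (2 * d).choose r)) := by rw [e1]; ring
      _ ≤ _ := by gcongr
  have h2 : (2 : ℝ) ^ (2 * r + 1) * ((d.descFactorial (2 * r + 1) : ℕ) : ℝ) ≤
      n * ((((r + 1).ascFactorial (r + 1) : ℕ) : ℝ) * (2 * (d : ℝ)) ^ r) := by exact_mod_cast h1
  have h3 := asc_le r (r + 1)
  have h4 := le_desc d (2 * r + 1) hr
  push_cast at h3 h4
  set D : ℝ := ((d.descFactorial (2 * r + 1) : ℕ) : ℝ) with hD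
  set A : ℝ := (((r + 1).ascFactorial (r + 1) : ℕ) : ℝ) with hA
  have hdr : (2 * (r : ℝ) + 1) ≤ d := by exact_mod_cast hr
  have hM : (0 : ℝ) < (d : ℝ) - 2 * r := by linarith
  have hd0 : (0 : ℝ) < d := by linarith [Nat.cast_nonneg (α := ℝ) r]
  have hA0 : 0 ≤ A := by positivity
  have hD0 : 0 ≤ D := by positivity
  -- `2 ^ (r + 1) * A ≤ (3 (r + 1)) ^ (r + 1)`
  have h5 : (2 : ℝ) ^ (r + 1) * A ≤ (3 * ((r : ℝ) + 1)) ^ (r + 1) := by
    refine h3.trans (pow_le_pow_left₀ (by positivity) (by linarith) _)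
  have h6 : ((d : ℝ) * (d - 2 * r)) ^ (2 * r + 1) ≤ D ^ 2 := by
    refine le_trans (le_of_eq ?_) h4
    congr 2
    ring
  -- `(4 (d - 2 r)) ^ (r + 1) ≤ n * (3 (r + 1)) ^ (r + 1)`
  have h7 : ((4 : ℝ) * (d - 2 * r)) ^ (r + 1) ≤ n * (3 * ((r : ℝ) + 1)) ^ (r + 1) := by
    have h8 : (2 : ℝ) ^ (r + 1) * ((2 : ℝ) ^ (2 * r + 1) * D) ≤
        n * (3 * ((r : ℝ) + 1)) ^ (r + 1) * (2 * (d : ℝ)) ^ r := by
      calc (2 : ℝ) ^ (r + 1) * ((2 : ℝ) ^ (2 * r + 1) * D)
          ≤ (2 : ℝ) ^ (r + 1) * (n * (A * (2 * (d : ℝ)) ^ r)) :=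
            mul_le_mul_of_nonneg_left h2 (by positivity)
        _ = n * (2 ^ (r + 1) * A) * (2 * (d : ℝ)) ^ r := by ring
        _ ≤ _ := by gcongr
    have h9 : ((4 : ℝ) * (d - 2 * r)) ^ (r + 1) * (2 * (d : ℝ)) ^ r ≤
        (2 : ℝ) ^ (r + 1) * ((2 : ℝ) ^ (2 * r + 1) * D) := by
      refine (pow_le_pow_iff_left₀ (by positivity) (by positivity) two_ne_zero).1 ?_
      have e1 : (((4 : ℝ) * (d - 2 * r)) ^ (r + 1) * (2 * (d : ℝ)) ^ r) ^ 2 =
          (4 ^ (r + 1)) ^ 2 * (2 ^ r) ^ 2 * (((d : ℝ) - 2 * r) * ((d : ℝ) - 2 * r) ^ (2 * r + 1)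
            * (d : ℝ) ^ (2 * r)) := by
        rw [mul_pow, mul_pow, mul_pow, mul_pow]
        ring
      have e2 : ((2 : ℝ) ^ (r + 1) * ((2 : ℝ) ^ (2 * r + 1) * D)) ^ 2 =
          (4 ^ (r + 1)) ^ 2 * (2 ^ r) ^ 2 * D ^ 2 := by
        have : (4 : ℝ) ^ (r + 1) = (2 ^ (r + 1)) ^ 2 := by
          rw [← pow_mul, mul_comm, pow_mul]; norm_num
        rw [this]
        ring
      rw [e1, e2]
      refine mul_le_mul_of_nonneg_left ?_ (by positivity)
      refine le_trans ?_ h6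
      rw [mul_pow, pow_succ (d : ℝ)]
      have e3 : ((d : ℝ) - 2 * r) ≤ d := by linarith [Nat.cast_nonneg (α := ℝ) r]
      calc ((d : ℝ) - 2 * r) * ((d : ℝ) - 2 * r) ^ (2 * r + 1) * (d : ℝ) ^ (2 * r)
          ≤ (d : ℝ) * ((d : ℝ) - 2 * r) ^ (2 * r + 1) * (d : ℝ) ^ (2 * r) := by gcongr
        _ = _ := by ring
    exact le_of_mul_le_mul_right (h9.trans h8) (by positivity)
  have e4 : ((4 / 3 : ℝ) * ((d : ℝ) - 2 * r)) ^ (r + 1) =
      ((4 : ℝ) * (d - 2 * r)) ^ (r + 1) / 3 ^ (r + 1) := by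
    rw [← div_pow]
    congr 1
    ring
  rw [e4, div_le_iff₀ (by positivity)]
  calc ((4 : ℝ) * (d - 2 * r)) ^ (r + 1) ≤ n * (3 * ((r : ℝ) + 1)) ^ (r + 1) := h7
    _ = _ := by rw [mul_pow]; ring

/-- One range of `q / d`. -/
theorem piece {d n q : ℕ} (hq : 1 ≤ q)
    (hmain : ((4 / 3 : ℝ) * ((d : ℝ) - 2 * q)) ^ q ≤ n * (q : ℝ) ^ q)
    (m : ℕ) (x c B : ℝ) (hx0 : 0 < x) (hx : (q : ℝ) ≤ x * d)
    (hc : c * x ≤ 4 / 3 * (1 - 2 * x)) (hc0 : 0 ≤ c) (hB : B ^ m ≤ c) (hB1 : 1 ≤ B)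
    (hm : d ≤ m * q) : B ^ d ≤ n := by
  have hq0 : (0 : ℝ) < q := by exact_mod_cast hq
  have h1 : c * q ≤ (4 / 3 : ℝ) * ((d : ℝ) - 2 * q) := by
    -- `c ≤ 4 / 3 * (1 / x - 2)` and `1 / x ≤ d / q`
    have h2 : c + 8 / 3 ≤ 4 / 3 * (1 / x) := by
      rw [mul_one_div, le_div_iff₀ hx0]
      linarith
    have h3 : (q : ℝ) * (1 / x) ≤ d := by
      rw [mul_one_div, div_le_iff₀ hx0]
      linarith
    have h4 := mul_le_mul_of_nonneg_right h2 hq0.le
    nlinarith
  have h2 : c ^ q ≤ n := by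
    have h3 : (c * q) ^ q ≤ n * (q : ℝ) ^ q :=
      (pow_le_pow_left₀ (by positivity) h1 q).trans hmain
    rw [mul_pow] at h3
    exact le_of_mul_le_mul_right h3 (by positivity)
  calc B ^ d ≤ B ^ (m * q) := pow_le_pow_right₀ hB1 hm
    _ = (B ^ m) ^ q := by rw [pow_mul]
    _ ≤ c ^ q := pow_le_pow_left₀ (by positivity) hB q
    _ ≤ n := h2

/-- The exponential bound. -/
theorem expo {d n : ℕ} (hd : 1 ≤ d) (h : (unitGraph d).Colorable n) : (5 / 4 : ℝ) ^ d ≤ n := by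
  by_cases hd5 : d < 5
  · have h1 := main_ineq h 2 Nat.prime_two 0
    simp only [pow_zero, mul_one, Nat.sub_self, Nat.choose_zero_right] at h1
    have h2 : 2 * d ≤ n := by simpa using h1
    have h3 : (2 * d : ℝ) ≤ n := by exact_mod_cast h2
    refine le_trans ?_ h3
    interval_cases d <;> norm_num
  · obtain ⟨a, ha1, ha2⟩ : ∃ a : ℕ, 9 * 2 ^ a ≤ 2 * d ∧ d < 9 * 2 ^ a := by
      refine ⟨Nat.log 2 (2 * d / 9), ?_, ?_⟩
      · have h1 := Nat.pow_log_le_self 2 (x := 2 * d / 9) (by omega)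
        omega
      · have h1 := Nat.lt_pow_succ_log_self (b := 2) (by norm_num) (2 * d / 9)
        rw [Nat.succ_eq_add_one, pow_succ] at h1
        omega
    have h1 := main_ineq h 2 Nat.prime_two a
    set q := 2 ^ a with hq
    have hq1 : 1 ≤ q := Nat.one_le_two_pow
    obtain ⟨r, hr⟩ : ∃ r, q = r + 1 := ⟨q - 1, by omega⟩
    have h2 : ((4 / 3 : ℝ) * ((d : ℝ) - 2 * q)) ^ q ≤ n * (q : ℝ) ^ q := by
      have e1 : 2 * q - 1 = 2 * r + 1 := by omega
      have e2 : q - 1 = r := by omega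
      rw [e1, e2] at h1
      have h3 := conv (by omega) h1
      have h4 : (q : ℝ) = (r : ℝ) + 1 := by rw [hr]; push_cast; ring
      have h5 : (2 * q : ℝ) ≤ d := by exact_mod_cast (show 2 * q ≤ d by omega)
      rw [h4] at h5
      rw [← hr] at h3
      rw [h4]
      refine le_trans (pow_le_pow_left₀ ?_ ?_ _) h3
      · have : (0 : ℝ) ≤ (d : ℝ) - 2 * (r + 1) := by linarith
        positivity
      · linarith
    have hx9 : (9 * q : ℝ) ≤ 2 * d := by exact_mod_cast ha1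
    have hmono : ∀ j : ℕ, j * q < d → (j : ℝ) * q ≤ d := fun j hj => by
      exact_mod_cast hj.le
    by_cases c5 : d ≤ 5 * q
    · exact piece hq1 h2 5 (2 / 9) (10 / 3) _ (by norm_num) (by linarith) (by norm_num)
        (by norm_num) (by norm_num) (by norm_num) c5
    have g5 := hmono 5 (by omega)
    by_cases c6 : d ≤ 6 * q
    · exact piece hq1 h2 6 (1 / 5) 4 _ (by norm_num) (by push_cast at g5; linarith) (by norm_num)
        (by norm_num) (by norm_num) (by norm_num) c6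
    have g6 := hmono 6 (by omega)
    by_cases c7 : d ≤ 7 * q
    · exact piece hq1 h2 7 (1 / 6) (16 / 3) _ (by norm_num) (by push_cast at g6; linarith)
        (by norm_num) (by norm_num) (by norm_num) (by norm_num) c7
    have g7 := hmono 7 (by omega)
    by_cases c8 : d ≤ 8 * q
    · exact piece hq1 h2 8 (1 / 7) (20 / 3) _ (by norm_num) (by push_cast at g7; linarith)
        (by norm_num) (by norm_num) (by norm_num) (by norm_num) c8
    have g8 := hmono 8 (by omega)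
    exact piece hq1 h2 9 (1 / 8) 8 _ (by norm_num) (by push_cast at g8; linarith)
      (by norm_num) (by norm_num) (by norm_num) (by norm_num) ha2.le

end Pool.Agent.Helper144.L1
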