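import Mathlib

/-!
A bound of Frankl and Wilson for families of `(2 q - 1)`-sets without two members meeting in
exactly `q - 1` elements, `q` a prime power.
-/

set_option autoImplicit false

namespace Pool.Agent.Helper144.L1

open Finset

/-- Lucas: the residue of `t.choose (p ^ a - 1)`. -/
theorem choose_mod (p : ℕ) [hp : Fact p.Prime] (a : ℕ) : ∀ t : ℕ,
    ((t.choose (p ^ a - 1) : ℕ) : ZMod p) = if t % p ^ a = p ^ a - 1 then 1 else 0 := by
  have hp1 : 1 < p := hp.out.one_lt
  induction a with
  | zero => intro t; simp [Nat.mod_one]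
  | succ a ih =>
    intro t
    have hpa : 0 < p ^ a := by positivity
    have h0 : p ^ (a + 1) - 1 = (p - 1) + p * (p ^ a - 1) := by
      rw [pow_succ, Nat.mul_sub, mul_one, mul_comm]
      have : p ≤ p * p ^ a := Nat.le_mul_of_pos_right _ hpa
      omega
    have h1 : (p ^ (a + 1) - 1) % p = p - 1 := by
      rw [h0, Nat.add_mul_mod_self_left, Nat.mod_eq_of_lt (by omega)]
    have h2 : (p ^ (a + 1) - 1) / p = p ^ a - 1 := by
      rw [h0, Nat.add_mul_div_left _ _ (by omega), Nat.div_eq_of_lt (by omega), zero_add]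
    have h3 := Choose.choose_modEq_choose_mod_mul_choose_div_nat (n := t) (k := p ^ (a + 1) - 1)
      (p := p)
    rw [h1, h2] at h3
    have h4 := (ZMod.natCast_eq_natCast_iff _ _ _).2 h3
    rw [h4, Nat.cast_mul, ih]
    have h5 : t % p < p := Nat.mod_lt _ (by omega)
    have h6 : (((t % p).choose (p - 1) : ℕ) : ZMod p) = if t % p = p - 1 then 1 else 0 := by
      by_cases h : t % p = p - 1
      · rw [h]; simp
      · rw [Nat.choose_eq_zero_of_lt (by omega)]; simp [h]
    rw [h6]
    have h7 : t % p ^ (a + 1) = t % p + p * (t / p % p ^ a) := by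
      rw [pow_succ, mul_comm, Nat.mod_mul]
    have h8 : t / p % p ^ a < p ^ a := Nat.mod_lt _ hpa
    have h9 : (t % p ^ (a + 1) = p ^ (a + 1) - 1) ↔
        (t % p = p - 1 ∧ t / p % p ^ a = p ^ a - 1) := by
      rw [h7, h0]
      constructor
      · intro h
        have e1 : (t % p + p * (t / p % p ^ a)) % p = ((p - 1) + p * (p ^ a - 1)) % p := by rw [h]
        rw [Nat.add_mul_mod_self_left, Nat.add_mul_mod_self_left, Nat.mod_mod,
          Nat.mod_eq_of_lt (show p - 1 < p by omega)] at e1
        rw [e1] at h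
        refine ⟨e1, ?_⟩
        have e2 : p * (t / p % p ^ a) = p * (p ^ a - 1) := by omega
        exact Nat.eq_of_mul_eq_mul_left (by omega) e2
      · rintro ⟨e1, e2⟩
        rw [e1, e2]
    by_cases c1 : t % p = p - 1 <;> by_cases c2 : t / p % p ^ a = p ^ a - 1 <;> simp [h9, c1, c2]

variable {β : Type} [Fintype β] [DecidableEq β]

/-- The inclusion vector of a set. -/
def incl (p m : ℕ) (A : Finset β) : (Finset.powersetCard m (univ : Finset β)) → ZMod p :=
  fun S => if S.1 ⊆ A then 1 else 0

theorem incl_dot (p m : ℕ) (A B : Finset β) :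
    ∑ S, incl p m A S * incl p m B S = (((A ∩ B).card.choose m : ℕ) : ZMod p) := by
  have h1 : ∀ S : (Finset.powersetCard m (univ : Finset β)),
      incl p m A S * incl p m B S = if S.1 ⊆ A ∩ B then 1 else 0 := by
    intro S
    simp only [incl, Finset.subset_inter_iff]
    by_cases h1 : S.1 ⊆ A <;> by_cases h2 : S.1 ⊆ B <;> simp [h1, h2]
  simp only [h1]
  rw [Finset.sum_coe_sort (Finset.powersetCard m (univ : Finset β))
    (fun S => if S ⊆ A ∩ B then (1 : ZMod p) else 0)]
  rw [← Finset.sum_filter, Finset.sum_const, nsmul_eq_mul, mul_one]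
  congr 1
  rw [← Finset.card_powersetCard]
  congr 1
  ext S
  simp only [mem_filter, mem_powersetCard, subset_univ, true_and]
  tauto

/-- The theorem of Frankl and Wilson. -/
theorem frankl_wilson (p : ℕ) [hp : Fact p.Prime] (a : ℕ) (F : Finset (Finset β))
    (h1 : ∀ A ∈ F, A.card = 2 * p ^ a - 1)
    (h2 : ∀ A ∈ F, ∀ B ∈ F, A ≠ B → (A ∩ B).card ≠ p ^ a - 1) :
    F.card ≤ (Fintype.card β).choose (p ^ a - 1) := by
  have hpa : 0 < p ^ a := by have := hp.out.pos; positivity
  have hdot : ∀ A B : F, ∑ S, incl p (p ^ a - 1) A.1 S * incl p (p ^ a - 1) B.1 S =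
      if A = B then 1 else 0 := by
    intro A B
    rw [incl_dot, choose_mod]
    by_cases hAB : A = B
    · subst hAB
      rw [Finset.inter_self, h1 _ A.2]
      have : (2 * p ^ a - 1) % p ^ a = p ^ a - 1 := by
        have e : 2 * p ^ a - 1 = (p ^ a - 1) + p ^ a * 1 := by omega
        rw [e, Nat.add_mul_mod_self_left, Nat.mod_eq_of_lt (by omega)]
      simp [this]
    · have hne : A.1 ≠ B.1 := fun h => hAB (Subtype.ext h)
      have e1 := h2 _ A.2 _ B.2 hne
      have e2 : (A.1 ∩ B.1).card < 2 * p ^ a - 1 := by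
        rw [← h1 _ A.2]
        refine Finset.card_lt_card ⟨Finset.inter_subset_left, fun h => hne ?_⟩
        have h3 : A.1 ⊆ B.1 := fun x hx => (Finset.mem_inter.1 (h hx)).2
        exact Finset.eq_of_subset_of_card_le h3 (by rw [h1 _ A.2, h1 _ B.2])
      have e3 : (A.1 ∩ B.1).card % p ^ a ≠ p ^ a - 1 := by
        by_cases h : (A.1 ∩ B.1).card < p ^ a
        · rwa [Nat.mod_eq_of_lt h]
        · rw [Nat.mod_eq_sub_mod (by omega), Nat.mod_eq_of_lt (by omega)]
          omega
      simp [e3, hAB]
  have hli : LinearIndependent (ZMod p) (fun A : F => incl p (p ^ a - 1) A.1) := by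
    rw [Fintype.linearIndependent_iff]
    intro g hg B
    have e1 : ∑ S, (∑ A : F, g A • incl p (p ^ a - 1) A.1) S * incl p (p ^ a - 1) B.1 S = 0 := by
      rw [hg]; simp
    simp only [Finset.sum_apply, Pi.smul_apply, smul_eq_mul, Finset.sum_mul] at e1
    rw [Finset.sum_comm] at e1
    have e2 : ∀ A : F, ∑ S, g A * incl p (p ^ a - 1) A.1 S * incl p (p ^ a - 1) B.1 S =
        g A * (if A = B then 1 else 0) := by
      intro A
      rw [← hdot A B, Finset.mul_sum]
      exact Finset.sum_congr rfl fun S _ => by ring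
    simp only [e2] at e1
    simpa using e1
  have h3 := hli.fintype_card_le_finrank
  simpa using h3

end Pool.Agent.Helper144.L1
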