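import Pool.Agent.Helper144.L1.Enc

/-!
The unit-distance graph of `ℓ_1^d`, and how to bound its chromatic number from below by a finite
set of integer points of `ℝ^3`.
-/

set_option autoImplicit false

namespace Pool.Agent.Helper144.L1

open Pool.Agent.Helper144.L1.Rup

/-- The unit-distance graph of `ℓ_1^d`: the vertices are the points of `ℝ^d`, and two points are
adjacent if and only if the sum of the `|x i - y i|` is `1`. -/
def unitGraph (d : ℕ) : SimpleGraph (Fin d → ℝ) where
  Adj x y := ∑ i, |x i - y i| = 1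
  symm := ⟨fun x y h => by
    rw [← h]
    exact Finset.sum_congr rfl fun i _ => abs_sub_comm _ _⟩
  loopless := ⟨fun x h => by simp at h⟩

theorem adj_iff {d : ℕ} (x y : Fin d → ℝ) : (unitGraph d).Adj x y ↔ ∑ i, |x i - y i| = 1 :=
  Iff.rfl

/-- An integer point, scaled by `1/4`. -/
noncomputable def toR (v : ℤ × ℤ × ℤ) : Fin 3 → ℝ :=
  ![(v.1 : ℝ) / 4, (v.2.1 : ℝ) / 4, (v.2.2 : ℝ) / 4]

theorem adj_toR {v w : ℤ × ℤ × ℤ} (h : dist1 v w = 4) : (unitGraph 3).Adj (toR v) (toR w) := by
  rw [adj_iff, Fin.sum_univ_three]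
  have h1 : ((dist1 v w : ℤ) : ℝ) = 4 := by rw [h]; norm_num
  simp only [dist1] at h1
  push_cast at h1
  have key : ∀ a b : ℝ, |a / 4 - b / 4| = |a - b| / 4 := by
    intro a b
    rw [← sub_div, abs_div]
    norm_num
  simp only [toR, Matrix.cons_val_zero, Matrix.cons_val_one, Matrix.cons_val]
  rw [key, key, key]
  linarith

theorem dist_cr {s t : Fin 6} (h : s ≠ t) : dist1 (cr s.val) (cr t.val) = 4 := by
  revert h; revert s t; decide

/-- The criterion: a refuted list of clauses gives a lower bound. -/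
theorem not_colorable {k : ℕ} (hk : 6 ≤ k) {vs : List (ℤ × ℤ × ℤ)} {edges basis : List (ℕ × ℕ)}
    {steps : List ℕ} {N n : ℕ}
    (h_ok : build (cnf k n edges basis) Tr.nil 0 (fun t => run steps t N) = true)
    (h_edges : edgesOk vs edges = true) (h_basis : basisOk vs basis = true) :
    ¬ (unitGraph 3).Colorable k := by
  classical
  rintro ⟨C⟩
  -- normalise the colours of the cross
  let g : Fin 6 → Fin k := fun t => C (toR (cr t.val))
  have hg : Function.Injective g := by
    intro s t hst
    by_contra hne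
    exact C.valid (adj_toR (dist_cr hne)) hst
  obtain ⟨σ, hσ⟩ : ∃ σ : Equiv.Perm (Fin k), ∀ t, σ (g t) = Fin.castLE hk t := by
    let e1 : Set.range g ≃ Set.range (Fin.castLE hk) :=
      (Equiv.ofInjective g hg).symm.trans (Equiv.ofInjective _ (Fin.castLE_injective hk))
    refine ⟨e1.extendSubtype, fun t => ?_⟩
    rw [Equiv.extendSubtype_apply_of_mem e1 (g t) ⟨t, rfl⟩]
    simp [e1]
  let f : ℕ → ℕ := fun i => (σ (C (toR (pt vs i)))).val
  have hf : ∀ i < n, f i < k := fun i _ => Fin.isLt _
  have he : ∀ e ∈ edges, f e.1 ≠ f e.2 := by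
    intro e hee h4
    have h1 := of_decide_eq_true (List.all_eq_true.1 h_edges e hee)
    exact C.valid (adj_toR h1) (σ.injective (Fin.ext h4))
  have hb : ∀ b ∈ basis, b.2 < k ∧ f b.1 = b.2 := by
    intro b hbb
    have h1 := List.all_eq_true.1 h_basis b hbb
    simp only [Bool.and_eq_true, decide_eq_true_eq] at h1
    obtain ⟨h2, h3⟩ := h1
    refine ⟨by omega, ?_⟩
    simp only [f]
    rw [h3]
    have h4 := hσ ⟨b.2, h2⟩
    simp only [g] at h4
    rw [h4]
    rfl
  exact refute h_ok _ (sat_cnf f hf he hb)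

/-- A colouring in a higher dimension gives one in dimension `3`. -/
theorem colorable_three {d n : ℕ} (hd : 3 ≤ d) (h : (unitGraph d).Colorable n) :
    (unitGraph 3).Colorable n := by
  obtain ⟨m, rfl⟩ := Nat.exists_eq_add_of_le hd
  obtain ⟨C⟩ := h
  refine ⟨SimpleGraph.Coloring.mk (fun x => C (Fin.append x (fun _ : Fin m => (0 : ℝ)))) ?_⟩
  intro x y hxy
  apply C.valid
  rw [adj_iff] at hxy ⊢
  rw [Fin.sum_univ_add]
  simp only [Fin.append_left, Fin.append_right, sub_self, abs_zero, Finset.sum_const_zero,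
    add_zero]
  exact hxy

end Pool.Agent.Helper144.L1
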