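import Pool.Agent.Helper144.L1.Colour
import Pool.Agent.Helper144.L1.Graph

/-!
Averaging over large boxes.
-/

set_option autoImplicit false

namespace Pool.Agent.Helper144.L1

open Finset

variable {d k : ℕ}

/-- The box of the integer points with coordinates between `-N` and `N`. -/
noncomputable def box (d N : ℕ) : Finset (Fin d → ℤ) := Fintype.piFinset fun _ => Finset.Icc (-(N : ℤ)) N

theorem card_box (d N : ℕ) : (box d N).card = (2 * N + 1) ^ d := by
  rw [box, Fintype.card_piFinset]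
  simp only [Int.card_Icc, prod_const, card_univ, Fintype.card_fin]
  congr 1
  omega

theorem mem_box {N : ℕ} {x : Fin d → ℤ} : x ∈ box d N ↔ ∀ i, -(N : ℤ) ≤ x i ∧ x i ≤ N := by
  simp [box]

theorem abs_u_le (p : P d) (i : Fin d) : -1 ≤ u p i ∧ u p i ≤ 1 := by
  simp only [u]
  split_ifs <;> constructor <;> norm_num

theorem box_ineq (hd : 3 ≤ d) {f : (Fin d → ℤ) → Fin k} (hf : Proper4 f) (N : ℕ) :
    (2 * N + 1) ^ d * (4 * (d - 1) * (d - 2)) ≤
      (2 * (N + 2) + 1) ^ d * (4 * (d - 1) * (k - 2 * d)) := by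
  classical
  let U : (Fin d → ℤ) → Finset (P d × P d) := fun s =>
    (PP d).filter (fun x => f s ∈ missing f (s - u x.1 - u x.2))
  let V : (Fin d → ℤ) → Finset (P d × P d) := fun c =>
    (PP d).filter (fun x => f (c + u x.1 + u x.2) ∈ missing f c)
  have h1 : (2 * N + 1) ^ d * (4 * (d - 1) * (d - 2)) ≤ ((box d N).sigma U).card := by
    rw [card_sigma, ← card_box, ← smul_eq_mul]
    exact Finset.card_nsmul_le_sum _ _ _ fun s _ => U_bound hd hf s
  have h2 : ((box d (N + 2)).sigma V).card ≤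
      (2 * (N + 2) + 1) ^ d * (4 * (d - 1) * (k - 2 * d)) := by
    rw [card_sigma, ← card_box, ← smul_eq_mul]
    exact Finset.sum_le_card_nsmul _ _ _ fun c _ => V_bound hd hf c
  refine h1.trans (le_trans ?_ h2)
  refine Finset.card_le_card_of_injOn (fun x => ⟨x.1 - u x.2.1 - u x.2.2, x.2⟩) ?_ ?_
  · rintro ⟨s, x⟩ hx
    obtain ⟨hs, hxU⟩ := mem_sigma.1 (mem_coe.1 hx)
    obtain ⟨hP, hm⟩ := mem_filter.1 hxU
    refine mem_coe.2 (mem_sigma.2 ⟨?_, mem_filter.2 ⟨hP, ?_⟩⟩)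
    · simp only at hs ⊢
      rw [mem_box] at hs ⊢
      intro i
      have h3 := hs i
      have h4 := abs_u_le x.1 i
      have h5 := abs_u_le x.2 i
      simp only [Pi.sub_apply]
      push_cast
      constructor <;> omega
    · simp only at hm ⊢
      have : s - u x.1 - u x.2 + u x.1 + u x.2 = s := by abel
      rw [this]
      exact hm
  · rintro ⟨s, x⟩ _ ⟨t, y⟩ _ h
    simp only [Sigma.mk.injEq, heq_eq_eq] at h ⊢
    obtain ⟨h3, h4⟩ := h
    subst h4
    exact ⟨by simpa using h3, rfl⟩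

/-- The bound for colourings of `ℤ^d`. -/
theorem bound_int (hd : 3 ≤ d) {f : (Fin d → ℤ) → Fin k} (hf : Proper4 f) : 3 * d - 2 ≤ k := by
  have hk := card_missing hf 0
  by_contra hlt
  have hlt2 : k - 2 * d + 1 ≤ d - 2 := by omega
  have hmain : ∀ N : ℕ, ((d - 2 : ℕ) : ℝ) ≤
      (1 + 4 / (2 * (N : ℝ) + 1)) ^ d * ((k - 2 * d : ℕ) : ℝ) := by
    intro N
    have h1 := box_ineq hd hf N
    have h2 : (2 * N + 1) ^ d * (d - 2) ≤ (2 * (N + 2) + 1) ^ d * (k - 2 * d) := by
      have h3 : 0 < 4 * (d - 1) := by omega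
      refine Nat.le_of_mul_le_mul_left ?_ h3
      calc 4 * (d - 1) * ((2 * N + 1) ^ d * (d - 2)) = (2 * N + 1) ^ d * (4 * (d - 1) * (d - 2)) := by
            ring
        _ ≤ _ := h1
        _ = _ := by ring
    have h4 : ((2 * (N : ℝ) + 1)) ^ d * ((d - 2 : ℕ) : ℝ) ≤
        (2 * ((N : ℝ) + 2) + 1) ^ d * ((k - 2 * d : ℕ) : ℝ) := by
      exact_mod_cast h2
    have h5 : (0 : ℝ) < 2 * (N : ℝ) + 1 := by positivity
    have h6 : (1 + 4 / (2 * (N : ℝ) + 1)) = (2 * ((N : ℝ) + 2) + 1) / (2 * (N : ℝ) + 1) := by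
      field_simp
      ring
    rw [h6, div_pow, div_mul_eq_mul_div, le_div_iff₀ (by positivity)]
    linarith
  have hlim : Filter.Tendsto (fun N : ℕ => (1 + 4 / (2 * (N : ℝ) + 1)) ^ d * ((k - 2 * d : ℕ) : ℝ))
      Filter.atTop (nhds ((1 + 0) ^ d * ((k - 2 * d : ℕ) : ℝ))) := by
    refine Filter.Tendsto.mul_const _ (Filter.Tendsto.pow (Filter.Tendsto.const_add _ ?_) _)
    refine Filter.Tendsto.div_atTop tendsto_const_nhds ?_
    refine Filter.tendsto_atTop_add_const_right _ _ ?_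
    exact Filter.Tendsto.const_mul_atTop (by norm_num) tendsto_natCast_atTop_atTop
  have h7 := ge_of_tendsto' hlim hmain
  have h8 : ((d - 2 : ℕ) : ℝ) ≤ ((k - 2 * d : ℕ) : ℝ) := by simpa using h7
  have h9 : d - 2 ≤ k - 2 * d := by exact_mod_cast h8
  omega

/-- The bound for the unit-distance graph. -/
theorem bound_unitGraph (hd : 3 ≤ d) (h : (unitGraph d).Colorable k) : 3 * d - 2 ≤ k := by
  obtain ⟨C⟩ := h
  refine bound_int (f := fun x => C (fun i => (x i : ℝ) / 4)) hd ?_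
  intro x y hxy
  apply C.valid
  rw [adj_iff]
  have key : ∀ i, |(x i : ℝ) / 4 - (y i : ℝ) / 4| = ((|x i - y i| : ℤ) : ℝ) / 4 := by
    intro i
    rw [← sub_div, abs_div]
    push_cast
    norm_num
  simp only [key]
  rw [← Finset.sum_div, ← Int.cast_sum, hxy]
  norm_num

end Pool.Agent.Helper144.L1
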