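import Mathlib

/-!
(Copied from helper767.) A small checker for propositional refutations (reverse unit propagation with hints), meant to be
evaluated by the kernel, and its soundness.

A clause is a pair `(p, n)` of bit masks: the variables occurring positively and negatively.
-/

set_option autoImplicit false

namespace Pool.Agent.Helper144.L1.Rup

/-- A valuation satisfies the clause `(p, n)`. -/
def Sat (v : ℕ → Prop) (p n : ℕ) : Prop :=
  (∃ i, p.testBit i = true ∧ v i) ∨ (∃ i, n.testBit i = true ∧ ¬ v i)

/-- Clause data base: a binary tree indexed by natural numbers. -/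
inductive Tr : Type
  | nil : Tr
  | node : ℕ → ℕ → Tr → Tr → Tr

/-- All stored clauses are satisfied. -/
def Tr.All (v : ℕ → Prop) : Tr → Prop
  | .nil => True
  | .node p n l r => Sat v p n ∧ l.All v ∧ r.All v

/-- Look up the clause with index `i` and pass it on to a continuation. -/
noncomputable def Tr.get (t : Tr) : ℕ → (ℕ → ℕ → Bool) → Bool :=
  Tr.rec (motive := fun _ => ℕ → (ℕ → ℕ → Bool) → Bool) (fun _ _ => false)
    (fun p n _ _ gl gr i k =>
      Nat.rec (motive := fun _ => Bool) (k p n)
        (fun j _ => cond (Nat.beq (Nat.mod j 2) 0) (gl (Nat.div j 2) k) (gr (Nat.div j 2) k)) i) t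

/-- Insert a clause at index `i`. -/
noncomputable def Tr.ins (t : Tr) : ℕ → ℕ → ℕ → Tr :=
  Tr.rec (motive := fun _ => ℕ → ℕ → ℕ → Tr) (fun _ p n => Tr.node p n Tr.nil Tr.nil)
    (fun p0 n0 l r gl gr i p n =>
      Nat.rec (motive := fun _ => Tr) (Tr.node p n l r)
        (fun j _ => cond (Nat.beq (Nat.mod j 2) 0) (Tr.node p0 n0 (gl (Nat.div j 2) p n) r)
          (Tr.node p0 n0 l (gr (Nat.div j 2) p n))) i) t

/-- Evaluate `n` before passing it on. -/
def force (n : ℕ) (k : ℕ → Bool) : Bool :=
  Nat.rec (motive := fun _ => Bool) (k 0) (fun m _ => k (Nat.succ m)) n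

/-- `x` without the bits of `y`. -/
def diff (x y : ℕ) : ℕ := Nat.xor x (Nat.land x y)

/-- Unit propagation along the hints, starting from the partial assignment
(`T` = variables set to true, `F` = variables set to false). The hints are stored in the base 16384
digits of `h`, each increased by one. -/
noncomputable def prop (t : Tr) (fuel : ℕ) : ℕ → ℕ → ℕ → Bool :=
  Nat.rec (motive := fun _ => ℕ → ℕ → ℕ → Bool) (fun _ _ _ => false)
    (fun _ go T F h =>
      cond (Nat.beq h 0) false
        (t.get (Nat.sub (Nat.mod h 16384) 1) fun p n =>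
          cond (Nat.beq (diff p F) 0)
            (cond (Nat.beq (diff n T) 0) true
              (cond (Nat.beq (Nat.land (diff n T) (Nat.sub (diff n T) 1)) 0)
                (go T (Nat.lor F (diff n T)) (Nat.div h 16384)) false))
            (cond (Nat.beq (diff n T) 0)
              (cond (Nat.beq (Nat.land (diff p F) (Nat.sub (diff p F) 1)) 0)
                (go (Nat.lor T (diff p F)) F (Nat.div h 16384)) false) false))) fuel

/-- Read `m` literals from the base 16384 digits of `h` into the masks `p`, `n`, and continue. -/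
noncomputable def readClause (m : ℕ) : ℕ → ℕ → ℕ → (ℕ → ℕ → ℕ → Bool) → Bool :=
  Nat.rec (motive := fun _ => ℕ → ℕ → ℕ → (ℕ → ℕ → ℕ → Bool) → Bool) (fun p n h k => k p n h)
    (fun _ go p n h k =>
      cond (Nat.beq (Nat.mod h 2) 0)
        (go (Nat.lor p (Nat.pow 2 (Nat.div (Nat.mod h 16384) 2))) n (Nat.div h 16384) k)
        (go p (Nat.lor n (Nat.pow 2 (Nat.div (Nat.mod h 16384) 2))) (Nat.div h 16384) k)) m

/-- Run the whole refutation. -/
noncomputable def run (steps : List ℕ) : Tr → ℕ → Bool :=
  List.rec (motive := fun _ => Tr → ℕ → Bool) (fun _ _ => false)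
    (fun s _ go t id =>
      readClause (Nat.mod s 16384) 0 0 (Nat.div s 16384) fun p n h =>
        cond (prop t 16384 n p h)
          (cond (Nat.beq p 0) (cond (Nat.beq n 0) true (go (t.ins id p n) (Nat.succ id)))
            (go (t.ins id p n) (Nat.succ id))) false) steps

/-- Store a list of clauses, then continue. -/
noncomputable def build (l : List (ℕ × ℕ)) : Tr → ℕ → (Tr → Bool) → Bool :=
  List.rec (motive := fun _ => Tr → ℕ → (Tr → Bool) → Bool) (fun t _ k => k t)
    (fun c _ go t id k => force c.1 fun p => force c.2 fun n => force (Nat.succ id) fun id' =>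
      go (t.ins id p n) id' k) l


section Soundness

variable {v : ℕ → Prop}

theorem force_eq (n : ℕ) (k : ℕ → Bool) : force n k = k n := by
  cases n <;> rfl

theorem cond_true {b c d : Bool} (h : cond b c d = true) : (b = true ∧ c = true) ∨ (b = false ∧ d = true) := by
  cases b <;> simp_all

theorem Tr.get_sound {t : Tr} (ht : t.All v) : ∀ (i : ℕ) (k : ℕ → ℕ → Bool), t.get i k = true →
    ∃ p n, Sat v p n ∧ k p n = true := by
  induction t with
  | nil => intro i k h; exact absurd h (by simp [Tr.get])
  | node p n l r ihl ihr =>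
    obtain ⟨hs, hl, hr⟩ := ht
    intro i k h
    cases i with
    | zero => exact ⟨p, n, hs, h⟩
    | succ j =>
      change cond (Nat.beq (Nat.mod j 2) 0) (l.get (Nat.div j 2) k) (r.get (Nat.div j 2) k) = true at h
      rcases cond_true h with ⟨_, h⟩ | ⟨_, h⟩
      · exact ihl hl _ _ h
      · exact ihr hr _ _ h

theorem Tr.ins_all {t : Tr} (ht : t.All v) {p n : ℕ} (h : Sat v p n) : ∀ i : ℕ,
    (t.ins i p n).All v := by
  induction t with
  | nil => intro i; exact ⟨h, trivial, trivial⟩
  | node p0 n0 l r ihl ihr =>
    obtain ⟨hs, hl, hr⟩ := ht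
    intro i
    cases i with
    | zero => exact ⟨h, hl, hr⟩
    | succ j =>
      change (cond (Nat.beq (Nat.mod j 2) 0) (Tr.node p0 n0 (l.ins (Nat.div j 2) p n) r)
          (Tr.node p0 n0 l (r.ins (Nat.div j 2) p n))).All v
      cases Nat.beq (Nat.mod j 2) 0
      · exact ⟨hs, hl, ihr hr _⟩
      · exact ⟨hs, ihl hl _, hr⟩

theorem testBit_diff (x y i : ℕ) :
    (diff x y).testBit i = (x.testBit i && !(y.testBit i)) := by
  change (x ^^^ (x &&& y)).testBit i = _
  rw [Nat.testBit_xor, Nat.testBit_land]
  cases x.testBit i <;> cases y.testBit i <;> rfl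

theorem bit_of_diff_eq_zero {x y i : ℕ} (h : diff x y = 0) (hx : x.testBit i = true) :
    y.testBit i = true := by
  have := testBit_diff x y i
  rw [h, hx] at this
  simpa using this.symm

theorem unit_of_check {u : ℕ} (h0 : u ≠ 0) (h : Nat.beq (Nat.land u (Nat.sub u 1)) 0 = true) :
    ∃ k, ∀ i, u.testBit i = true ↔ i = k := by
  have h1 : u &&& (u - 1) = 0 := Nat.eq_of_beq_eq_true h
  obtain ⟨k, hk⟩ := (Nat.and_sub_one_eq_zero_iff_isPowerOfTwo h0).1 h1
  refine ⟨k, fun i => ?_⟩
  rw [hk, Nat.testBit_two_pow]
  simp [eq_comm]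

theorem prop_sound {t : Tr} (ht : t.All v) (fuel : ℕ) : ∀ (T F h : ℕ),
    (∀ i, T.testBit i = true → v i) → (∀ i, F.testBit i = true → ¬ v i) →
    prop t fuel T F h = true → False := by
  induction fuel with
  | zero => intro T F h _ _ hh; exact absurd hh (by simp [prop])
  | succ m ih =>
    intro T F h hT hF hh
    change cond (Nat.beq h 0) false
        (t.get (Nat.sub (Nat.mod h 16384) 1) fun p n =>
          cond (Nat.beq (diff p F) 0)
            (cond (Nat.beq (diff n T) 0) true
              (cond (Nat.beq (Nat.land (diff n T) (Nat.sub (diff n T) 1)) 0)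
                (prop t m T (Nat.lor F (diff n T)) (Nat.div h 16384)) false))
            (cond (Nat.beq (diff n T) 0)
              (cond (Nat.beq (Nat.land (diff p F) (Nat.sub (diff p F) 1)) 0)
                (prop t m (Nat.lor T (diff p F)) F (Nat.div h 16384)) false) false)) = true at hh
    rcases cond_true hh with ⟨_, hh⟩ | ⟨_, hh⟩
    · exact absurd hh (by simp)
    obtain ⟨p, n, hs, hk⟩ := Tr.get_sound ht _ _ hh
    rcases cond_true hk with ⟨hp, hk⟩ | ⟨hp, hk⟩
    · have hp0 : diff p F = 0 := Nat.eq_of_beq_eq_true hp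
      -- no positive literal is true
      have hpos : ∀ i, p.testBit i = true → ¬ v i := fun i hi => hF i (bit_of_diff_eq_zero hp0 hi)
      rcases cond_true hk with ⟨hn, _⟩ | ⟨hn, hk⟩
      · have hn0 : diff n T = 0 := Nat.eq_of_beq_eq_true hn
        rcases hs with ⟨i, hi, hvi⟩ | ⟨i, hi, hvi⟩
        · exact hpos i hi hvi
        · exact hvi (hT i (bit_of_diff_eq_zero hn0 hi))
      · have hn0 : diff n T ≠ 0 := by
          intro h0; rw [h0] at hn; exact absurd hn (by decide)
        rcases cond_true hk with ⟨hu, hk⟩ | ⟨_, hk⟩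
        · obtain ⟨j, hj⟩ := unit_of_check hn0 hu
          refine ih T _ _ hT ?_ hk
          intro i hi
          have hi' : (F ||| diff n T).testBit i = true := hi
          rw [Nat.testBit_lor, Bool.or_eq_true] at hi'
          rcases hi' with hi' | hi'
          · exact hF i hi'
          · rw [(hj i).1 hi']
            rcases hs with ⟨a, ha, hva⟩ | ⟨a, ha, hva⟩
            · exact absurd hva (hpos a ha)
            · by_cases hTa : T.testBit a = true
              · exact absurd (hT a hTa) hva
              · have : (diff n T).testBit a = true := by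
                  rw [testBit_diff, ha]; simpa using hTa
                rw [← (hj a).1 this]; exact hva
        · exact absurd hk (by simp)
    · have hp0 : diff p F ≠ 0 := by
        intro h0; rw [h0] at hp; exact absurd hp (by decide)
      rcases cond_true hk with ⟨hn, hk⟩ | ⟨_, hk⟩
      · have hn0 : diff n T = 0 := Nat.eq_of_beq_eq_true hn
        have hneg : ∀ i, n.testBit i = true → v i := fun i hi => hT i (bit_of_diff_eq_zero hn0 hi)
        rcases cond_true hk with ⟨hu, hk⟩ | ⟨_, hk⟩
        · obtain ⟨j, hj⟩ := unit_of_check hp0 hu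
          refine ih _ F _ ?_ hF hk
          intro i hi
          have hi' : (T ||| diff p F).testBit i = true := hi
          rw [Nat.testBit_lor, Bool.or_eq_true] at hi'
          rcases hi' with hi' | hi'
          · exact hT i hi'
          · rw [(hj i).1 hi']
            rcases hs with ⟨a, ha, hva⟩ | ⟨a, ha, hva⟩
            · by_cases hFa : F.testBit a = true
              · exact absurd hva (hF a hFa)
              · have : (diff p F).testBit a = true := by
                  rw [testBit_diff, ha]; simpa using hFa
                rw [← (hj a).1 this]; exact hva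
            · exact absurd (hneg a ha) hva
        · exact absurd hk (by simp)
      · exact absurd hk (by simp)

theorem readClause_sound (m : ℕ) : ∀ (p n h : ℕ) (k : ℕ → ℕ → ℕ → Bool),
    readClause m p n h k = true → ∃ p' n' h', k p' n' h' = true := by
  induction m with
  | zero => intro p n h k hk; exact ⟨p, n, h, hk⟩
  | succ m ih =>
    intro p n h k hk
    change cond (Nat.beq (Nat.mod h 2) 0)
        (readClause m (Nat.lor p (Nat.pow 2 (Nat.div (Nat.mod h 16384) 2))) n (Nat.div h 16384) k)
        (readClause m p (Nat.lor n (Nat.pow 2 (Nat.div (Nat.mod h 16384) 2))) (Nat.div h 16384) k) = true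
        at hk
    rcases cond_true hk with ⟨_, hk⟩ | ⟨_, hk⟩
    · exact ih _ _ _ _ hk
    · exact ih _ _ _ _ hk

theorem run_sound (steps : List ℕ) : ∀ (t : Tr) (id : ℕ), t.All v → run steps t id = true →
    False := by
  induction steps with
  | nil => intro t id _ h; exact absurd h (by simp [run])
  | cons s ss ih =>
    intro t id ht h
    change readClause (Nat.mod s 16384) 0 0 (Nat.div s 16384) (fun p n h =>
        cond (prop t 16384 n p h)
          (cond (Nat.beq p 0) (cond (Nat.beq n 0) true (run ss (t.ins id p n) (Nat.succ id)))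
            (run ss (t.ins id p n) (Nat.succ id))) false) = true at h
    obtain ⟨p, n, h', hk⟩ := readClause_sound _ _ _ _ _ h
    rcases cond_true hk with ⟨hp, hk⟩ | ⟨_, hk⟩
    · have hs : Sat v p n := by
        by_contra hns
        refine prop_sound ht 16384 n p h' (fun i hi => ?_) (fun i hi hv => hns (Or.inl ⟨i, hi, hv⟩)) hp
        by_contra hv
        exact hns (Or.inr ⟨i, hi, hv⟩)
      have hgo : run ss (t.ins id p n) (Nat.succ id) = true → False :=
        fun h => ih _ _ (Tr.ins_all ht hs id) h
      rcases cond_true hk with ⟨hp0, hk⟩ | ⟨_, hk⟩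
      · rcases cond_true hk with ⟨hn0, _⟩ | ⟨_, hk⟩
        · have h1 : p = 0 := Nat.eq_of_beq_eq_true hp0
          have h2 : n = 0 := Nat.eq_of_beq_eq_true hn0
          subst h1; subst h2
          rcases hs with ⟨i, hi, _⟩ | ⟨i, hi, _⟩ <;> simp at hi
        · exact hgo hk
      · exact hgo hk
    · exact absurd hk (by simp)

theorem build_sound (l : List (ℕ × ℕ)) : ∀ (t : Tr) (id : ℕ) (k : Tr → Bool), t.All v →
    (∀ c ∈ l, Sat v c.1 c.2) → build l t id k = true → ∃ t', Tr.All v t' ∧ k t' = true := by
  induction l with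
  | nil => intro t id k ht _ h; exact ⟨t, ht, h⟩
  | cons c l ih =>
    intro t id k ht hl h
    change force c.1 (fun p => force c.2 fun n => force (Nat.succ id) fun id' =>
      build l (t.ins id p n) id' k) = true at h
    rw [force_eq, force_eq, force_eq] at h
    exact ih _ _ _ (Tr.ins_all ht (hl c (List.mem_cons_self ..)) id)
      (fun c' hc' => hl c' (List.mem_cons_of_mem _ hc')) h

/-- A successful run refutes the clause list. -/
theorem refute {l : List (ℕ × ℕ)} {steps : List ℕ} {n : ℕ}
    (h : build l Tr.nil 0 (fun t => run steps t n) = true) (v : ℕ → Prop) :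
    ¬ ∀ c ∈ l, Sat v c.1 c.2 := by
  intro hl
  obtain ⟨t, ht, hk⟩ := build_sound l Tr.nil 0 _ trivial hl h
  exact run_sound steps t n ht hk

end Soundness

end Pool.Agent.Helper144.L1.Rup
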