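import Pool.Agent.Helper144.L1.FW
import Pool.Agent.Helper144.L1.Final

/-!
Signed sets: `{0, 1, -1}`-vectors with a given number of nonzero coordinates.
-/

set_option autoImplicit false

namespace Pool.Agent.Helper144.L1

open Finset

variable {d : ℕ}

/-- The vector of a set of signed coordinates. -/
def vec (A : Finset (P d)) : Fin d → ℤ := fun i =>
  (if (i, true) ∈ A then 1 else 0) - (if (i, false) ∈ A then 1 else 0)

/-- No two opposite signed coordinates. -/
def Good (A : Finset (P d)) : Prop := ∀ i, ¬ ((i, true) ∈ A ∧ (i, false) ∈ A)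

theorem card_eq_sum (A : Finset (P d)) : (A.card : ℤ) =
    ∑ i, ((if (i, true) ∈ A then 1 else 0) + (if (i, false) ∈ A then 1 else 0)) := by
  have h : (A.card : ℤ) = ∑ x : P d, if x ∈ A then 1 else 0 := by simp
  rw [h, Fintype.sum_prod_type]
  simp only [Fintype.sum_bool]

theorem dist_vec {A B : Finset (P d)} (hA : Good A) (hB : Good B) :
    ∑ i, |vec A i - vec B i| = (A.card : ℤ) + B.card - 2 * ((A ∩ B).card : ℤ) := by
  rw [card_eq_sum A, card_eq_sum B, card_eq_sum (A ∩ B), ← Finset.sum_add_distrib,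
    Finset.mul_sum, ← Finset.sum_sub_distrib]
  refine Finset.sum_congr rfl fun i _ => ?_
  have h1 := hA i
  have h2 := hB i
  simp only [vec, mem_inter]
  by_cases a1 : (i, true) ∈ A <;> by_cases a0 : (i, false) ∈ A <;>
    by_cases b1 : (i, true) ∈ B <;> by_cases b0 : (i, false) ∈ B <;>
    simp_all

/-- The signed set with support `x.1` and positive part `x.2`. -/
def enc (x : Σ _ : Finset (Fin d), Finset (Fin d)) : Finset (P d) :=
  x.1.image (fun i => (i, decide (i ∈ x.2)))

theorem mem_enc {x : Σ _ : Finset (Fin d), Finset (Fin d)} {i : Fin d} {b : Bool} :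
    (i, b) ∈ enc x ↔ i ∈ x.1 ∧ decide (i ∈ x.2) = b := by
  simp only [enc, mem_image, Prod.mk.injEq]
  constructor
  · rintro ⟨j, hj, rfl, hb⟩
    exact ⟨hj, hb⟩
  · rintro ⟨hi, hb⟩
    exact ⟨i, hi, rfl, hb⟩

theorem good_enc (x : Σ _ : Finset (Fin d), Finset (Fin d)) : Good (enc x) := by
  intro i h
  rw [mem_enc, mem_enc] at h
  have := h.1.2.symm.trans h.2.2
  exact absurd this (by decide)

theorem card_enc (x : Σ _ : Finset (Fin d), Finset (Fin d)) : (enc x).card = x.1.card :=
  card_image_of_injective _ fun _ _ h => (Prod.mk.inj h).1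

/-- The signed sets of size `m`. -/
def V (d m : ℕ) : Finset (Finset (P d)) :=
  ((powersetCard m (univ : Finset (Fin d))).sigma (fun S => S.powerset)).image enc

theorem card_V (d m : ℕ) : (V d m).card = 2 ^ m * d.choose m := by
  rw [V, card_image_of_injOn, card_sigma]
  · have : ∀ S ∈ powersetCard m (univ : Finset (Fin d)), S.powerset.card = 2 ^ m := by
      intro S hS
      rw [card_powerset, (mem_powersetCard.1 hS).2]
    rw [sum_congr rfl this, sum_const, card_powersetCard, smul_eq_mul, mul_comm]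
    simp
  · rintro ⟨S, T⟩ hx ⟨S', T'⟩ hy h
    have hT : T ⊆ S := mem_powerset.1 (mem_sigma.1 (mem_coe.1 hx)).2
    have hT' : T' ⊆ S' := mem_powerset.1 (mem_sigma.1 (mem_coe.1 hy)).2
    have key : ∀ i b, (i ∈ S ∧ decide (i ∈ T) = b) ↔ (i ∈ S' ∧ decide (i ∈ T') = b) := by
      intro i b
      have e1 := mem_enc (x := ⟨S, T⟩) (i := i) (b := b)
      have e2 := mem_enc (x := ⟨S', T'⟩) (i := i) (b := b)
      rw [h] at e1
      exact e1.symm.trans e2
    have hS : S = S' := by
      ext i
      constructor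
      · intro hi
        exact ((key i _).1 ⟨hi, rfl⟩).1
      · intro hi
        exact ((key i _).2 ⟨hi, rfl⟩).1
    subst hS
    have hTT : T = T' := by
      ext i
      constructor
      · intro hi
        exact of_decide_eq_true ((key i true).1 ⟨hT hi, decide_eq_true hi⟩).2
      · intro hi
        exact of_decide_eq_true ((key i true).2 ⟨hT' hi, decide_eq_true hi⟩).2
    subst hTT
    rfl

theorem mem_V {m : ℕ} {A : Finset (P d)} (h : A ∈ V d m) : Good A ∧ A.card = m := by
  obtain ⟨x, hx, rfl⟩ := mem_image.1 h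
  refine ⟨good_enc x, ?_⟩
  rw [card_enc]
  exact (mem_powersetCard.1 (mem_sigma.1 hx).1).2

/-- The bound for prime powers. -/
theorem main_ineq {n : ℕ} (h : (unitGraph d).Colorable n) (p : ℕ) (hp : p.Prime) (a : ℕ) :
    2 ^ (2 * p ^ a - 1) * d.choose (2 * p ^ a - 1) ≤ n * (2 * d).choose (p ^ a - 1) := by
  classical
  have : Fact p.Prime := ⟨hp⟩
  have hpa : 0 < p ^ a := by have := hp.pos; positivity
  obtain ⟨C⟩ := h
  let f : Finset (P d) → Fin n := fun A => C (fun i => (vec A i : ℝ) / (2 * (p ^ a : ℕ)))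
  have h1 : (V d (2 * p ^ a - 1)).card ≤
      (2 * d).choose (p ^ a - 1) * (univ : Finset (Fin n)).card := by
    refine Finset.card_le_mul_card_image_of_maps_to (f := f) (fun _ _ => mem_univ _) _ ?_
    intro c _
    have h2 := frankl_wilson p a ((V d (2 * p ^ a - 1)).filter (fun A => f A = c))
      (fun A hA => (mem_V (mem_filter.1 hA).1).2) ?_
    · simpa [Fintype.card_prod, mul_comm] using h2
    · intro A hA B hB _ hcard
      obtain ⟨hA1, hA2⟩ := mem_filter.1 hA
      obtain ⟨hB1, hB2⟩ := mem_filter.1 hB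
      obtain ⟨gA, cA⟩ := mem_V hA1
      obtain ⟨gB, cB⟩ := mem_V hB1
      refine C.valid ?_ (hA2.trans hB2.symm)
      rw [adj_iff]
      have hq : (0 : ℝ) < 2 * (p ^ a : ℕ) := by positivity
      have key : ∀ i, |(vec A i : ℝ) / (2 * (p ^ a : ℕ)) - (vec B i : ℝ) / (2 * (p ^ a : ℕ))| =
          ((|vec A i - vec B i| : ℤ) : ℝ) / (2 * (p ^ a : ℕ)) := by
        intro i
        rw [← sub_div, abs_div, abs_of_pos hq]
        push_cast
        rfl
      simp only [key]
      rw [← Finset.sum_div, ← Int.cast_sum, dist_vec gA gB, cA, cB, hcard,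
        div_eq_one_iff_eq hq.ne']
      have e1 : ((2 * p ^ a - 1 : ℕ) : ℤ) = 2 * ((p ^ a : ℕ) : ℤ) - 1 := by
        rw [Nat.cast_sub (by omega)]; push_cast; ring
      have e2 : ((p ^ a - 1 : ℕ) : ℤ) = ((p ^ a : ℕ) : ℤ) - 1 := by
        rw [Nat.cast_sub (by omega)]; push_cast; ring
      rw [e1, e2]
      push_cast
      ring
  rw [card_V] at h1
  simpa [mul_comm] using h1

end Pool.Agent.Helper144.L1
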